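import Pool.Agent.Lib.MP_b39e30_al.Lc.Sub

/-!
Uniform bound for the class of the normal closure, for modules without small torsion.
-/

set_option autoImplicit false

namespace Pool.Agent.Lib.MP_b39e30_al.Lc

open Pool.Agent.Lib.MP_b39e30_al.Lin

theorem lcs_le {Γ : Type*} [Group Γ] (g : Γ) (e : ℕ) :
    (Subgroup.normalClosure ({g} : Set Γ)).lowerCentralSeries e ≤ ZN g e := by
  induction e with
  | zero =>
    have := ZN_normal g 0
    refine Subgroup.normalClosure_le_normal ?_
    rw [Set.singleton_subset_iff]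
    simpa [zw] using gcm_mem g (fun _ => 1) 0
  | succ e ih =>
    have := ZN_normal g (e + 1)
    have h0 := ZN_normal g e
    refine (Subgroup.commutator_mono ih le_rfl).trans (Subgroup.commutator_le.2 fun w hw h hh => ?_)
    let C : Subgroup Γ := (Subgroup.centralizer
      ((ZN g e).map (QuotientGroup.mk' (ZN g (e + 1))) : Set (Γ ⧸ ZN g (e + 1)))).comap
        (QuotientGroup.mk' (ZN g (e + 1)))
    have h1 : ((ZN g e).map (QuotientGroup.mk' (ZN g (e + 1)))).Normal :=
      h0.map _ (QuotientGroup.mk'_surjective _)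
    have h2 : Subgroup.normalClosure ({g} : Set Γ) ≤ C := by
      refine Subgroup.normalClosure_le_normal ?_
      rw [Set.singleton_subset_iff]
      rintro _ ⟨v, hv, rfl⟩
      have h3 := (QuotientGroup.eq (s := ZN g (e + 1))).2 (gcm_cent g e hv)
      rw [QuotientGroup.mk_mul, QuotientGroup.mk_mul, QuotientGroup.mk_inv,
        eq_mul_inv_iff_mul_eq] at h3
      exact h3.symm
    rw [← QuotientGroup.eq_one_iff, ← QuotientGroup.mk'_apply, map_commutatorElement,
      commutatorElement_eq_one_iff_mul_comm]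
    exact h2 hh _ ⟨w, hw, rfl⟩

theorem unifM (d n : ℕ) :
    ∃ N : ℕ, ∀ (R M : Type) [CommRing R] [AddCommGroup M] [Module R M] (b : Fin d → M),
      Submodule.span R (Set.range b) = ⊤ → (∀ v : M, N.factorial • v = 0 → v = 0) →
      ∀ (Γ : Type) [Group Γ] (ρ : Γ →* Module.End R M) (g : Γ), Eng n g →
      ∀ f, ρ (zw g f N) = 1 := by
  by_contra hc
  simp only [not_exists, not_forall] at hc
  choose R M _ _ _ b hb hM Γ _ ρ g h f hf using hc
  have hF : Module.Finite (∀ c, R c) (∀ c, M c) := by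
    classical
    refine ⟨⟨Finset.univ.image fun j c => b c j, eq_top_iff.2 fun v _ => ?_⟩⟩
    choose a ha using fun c => (Submodule.mem_span_range_iff_exists_fun (R c)).1
      ((hb c).ge (Submodule.mem_top : v c ∈ ⊤))
    rw [Finset.coe_image, Finset.coe_univ, Set.image_univ]
    refine (Submodule.mem_span_range_iff_exists_fun _).2 ⟨fun j c => a c j, funext fun c => ?_⟩
    rw [Finset.sum_apply]
    exact ha c
  obtain ⟨R', _, _, M', _, _, _, θ, hθ⟩ := rat_module (∀ c, R c) ((∀ c, M c) ⧸ evS R M)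
    fun k v hk hv => by
      obtain ⟨v, rfl⟩ := (evS R M).mkQ_surjective v
      rw [← map_nsmul] at hv
      refine (Submodule.Quotient.mk_eq_zero _).2
        ((Filter.Eventually.and ((Submodule.Quotient.mk_eq_zero _).1 hv)
          (Filter.eventually_ge_atTop k)).mono fun c h => hM c _ ?_)
      obtain ⟨j, hj⟩ := Nat.dvd_factorial (Nat.pos_of_ne_zero hk) h.2
      have h2 : k • v c = 0 := h.1
      rw [hj, mul_comm, mul_smul, h2, smul_zero]
  have hE : Eng n g := fun x => funext fun c => by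
    have h1 : Function.Semiconj (fun y : ∀ c, Γ c => y c) (fun y => y⁻¹ * g⁻¹ * y * g)
        (fun y => y⁻¹ * (g c)⁻¹ * y * g c) := fun y => rfl
    exact (h1.iterate_right n x).trans (h c (x c))
  let σ : (∀ c, Γ c) →* ∀ c, Module.End (R c) (M c) :=
    MonoidHom.pi fun c => (ρ c).comp (Pi.evalMonoidHom Γ c)
  let ψ := θ.comp (redEnd R M)
  obtain ⟨e, he⟩ := fit0 (ψ.toMonoidHom.comp σ) hE
  have h3 : redEnd R M (σ (zw g (fun j c => f c j) e) - 1) = 0 := hθ (by
    have h2 : ψ (σ (zw g (fun j c => f c j) e)) = 1 := he _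
    rw [map_zero]
    change ψ _ = 0
    rw [map_sub, h2, map_one, sub_self])
  have h4 : ∀ k, ∀ᶠ c in Filter.atTop,
      (σ (zw g (fun j c => f c j) e) - 1) c (b c k) = 0 := fun k =>
    (Submodule.Quotient.mk_eq_zero (evS R M)).1
      (LinearMap.congr_fun h3 (Submodule.Quotient.mk fun c => b c k))
  obtain ⟨c, h5, h6⟩ := ((Filter.eventually_all.2 h4).and (Filter.eventually_ge_atTop e)).exists
  have h7 : (ρ c).toHomUnits (zw (g c) (f c) e) = 1 := by
    have h8 : (σ (zw g (fun j c => f c j) e) - 1) c = 0 := LinearMap.ext_on_range (hb c) h5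
    have h9 := map_zw (Pi.evalMonoidHom Γ c) g (fun j c => f c j) e
    exact Units.ext ((congrArg (ρ c) h9).symm.trans (sub_eq_zero.1 h8))
  rw [map_zw] at h7
  exact hf c (congrArg Units.val ((map_zw (ρ c).toHomUnits (g c) (f c) c).trans (zw_mono h7 h6)))

end Pool.Agent.Lib.MP_b39e30_al.Lc
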