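import Pool.Agent.Lib.MP_b39e30_al.Lc.Mod
import Pool.Agent.Lib.MP_b39e30_al.Lin.MEngine
import Pool.Agent.Lib.MP_b39e30_al.Lin.MUltra
import Pool.Agent.Lib.MP_b39e30_al.Lin.GBaer
import Pool.Agent.Lib.MP_b39e30_al.Lin.Final

/-!
A bounded identity satisfied by bounded left Engel elements of linear groups over commutative
`ℚ`-algebras, and the proof that this identity forces subnormality over any ring.
-/

set_option autoImplicit false

namespace Pool.Agent.Lib.MP_b39e30_al.Lc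

open Pool.Agent.Lib.MP_b39e30_al.Lin

section Words

variable {A : Type*} [Ring A] [Algebra ℚ A] (g g' : A) (L : Submodule ℚ A)

/-- The span of the words with at least `j` commutator letters. -/
def Jn (j : ℕ) : Submodule ℚ A :=
  Submodule.span ℚ {a | ∃ l : List (Fin 4 × A), (∀ p ∈ l, p.2 ∈ L) ∧ j ≤ nC l ∧
    a = (l.map (letter g g')).prod}

variable {g g' L}

theorem Jn_mul {i j : ℕ} {a b : A} (ha : a ∈ Jn g g' L i) (hb : b ∈ Jn g g' L j) :
    a * b ∈ Jn g g' L (i + j) := by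
  have h := Submodule.mul_mem_mul ha hb
  rw [Jn, Jn, Submodule.span_mul_span] at h
  refine Submodule.span_mono ?_ h
  rintro _ ⟨_, ⟨l, h1, h2, rfl⟩, _, ⟨l', h3, h4, rfl⟩, rfl⟩
  refine ⟨l ++ l', fun p hp => (List.mem_append.1 hp).elim (h1 p) (h3 p), ?_, by simp⟩
  rw [nC, List.countP_append]
  exact add_le_add h2 h4

theorem Jn_one : (1 : A) ∈ Jn g g' L 0 :=
  Submodule.subset_span ⟨[], by simp, Nat.zero_le _, by simp⟩

theorem Jn_adj {b : A} (hb : b ∈ Algebra.adjoin ℚ (L : Set A)) : b ∈ Jn g g' L 0 := by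
  induction hb using Algebra.adjoin_induction with
  | mem x hx => exact Submodule.subset_span ⟨[(0, x)], by simpa using hx, Nat.zero_le _, by
      simp [letter]⟩
  | algebraMap c =>
    rw [Algebra.algebraMap_eq_smul_one]
    exact Submodule.smul_mem _ _ Jn_one
  | add x z _ _ h1 h2 => exact add_mem h1 h2
  | mul x z _ _ h1 h2 => exact Jn_mul (i := 0) (j := 0) h1 h2

theorem Jn_step (h1 : g' * g = 1) {W : A} (hW : W ∈ L) : g' * W * g - W ∈ Jn g g' L 1 := by
  have h2 : g' * (g * W - W * g) ∈ Jn g g' L 1 :=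
    Submodule.subset_span ⟨[(3, 0), (1, W)], by simpa using hW, by simp [nC], by simp [letter]⟩
  have e : g' * W * g - W = -(g' * (g * W - W * g)) := by
    rw [mul_sub, ← mul_assoc, h1, one_mul, neg_sub, mul_assoc]
  rw [e]
  exact neg_mem h2

end Words

section Ideal

variable {A : Type*} [Ring A] [Algebra ℚ A] {Γ : Type*} [Group Γ] (ρ : Γ →* A) (g : Γ)
  (L : Submodule ℚ A)

/-- The products `b (h⁻¹ W h - W) b'` with `h` a conjugate of `g`. -/
def VS : Set A :=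
  {a | ∃ b ∈ Algebra.adjoin ℚ (L : Set A), ∃ b' ∈ Algebra.adjoin ℚ (L : Set A),
    ∃ W ∈ L, ∃ x : Γ, a = b * (ρ (x⁻¹ * g * x)⁻¹ * W * ρ (x⁻¹ * g * x) - W) * b'}

/-- The ideal of `ℚ⟨L⟩` generated by the differences `h⁻¹ W h - W`, `h` a conjugate of `g`. -/
def VI : Submodule ℚ A := Submodule.span ℚ (VS ρ g L)

variable {ρ g L}

theorem VI_mul {a c c' : A} (ha : a ∈ VI ρ g L) (hc : c ∈ Algebra.adjoin ℚ (L : Set A))
    (hc' : c' ∈ Algebra.adjoin ℚ (L : Set A)) : c * a * c' ∈ VI ρ g L := by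
  induction ha using Submodule.span_induction with
  | mem a ha =>
    obtain ⟨b, hb, b', hb', W, hW, x, rfl⟩ := ha
    exact Submodule.subset_span ⟨c * b, mul_mem hc hb, b' * c', mul_mem hb' hc', W, hW, x, by
      simp only [mul_assoc]⟩
  | zero => simp
  | add x y _ _ hx hy =>
    rw [mul_add, add_mul]
    exact add_mem hx hy
  | smul q x _ hx =>
    rw [mul_smul_comm, smul_mul_assoc]
    exact Submodule.smul_mem _ _ hx

variable (hL : ∀ x : Γ, ∀ W ∈ L, ρ x * W * ρ x⁻¹ ∈ L)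
include hL

theorem VI_conj (x : Γ) {b : A} (hb : b ∈ Algebra.adjoin ℚ (L : Set A)) :
    ρ x * b * ρ x⁻¹ ∈ Algebra.adjoin ℚ (L : Set A) :=
  gfin_conj ρ (fun W hW y => hL y W hW) x hb

theorem VI_le {a : A} (ha : a ∈ VI ρ g L) : a ∈ Algebra.adjoin ℚ (L : Set A) := by
  induction ha using Submodule.span_induction with
  | mem a ha =>
    obtain ⟨b, hb, b', hb', W, hW, x, rfl⟩ := ha
    have h1 := hL (x⁻¹ * g * x)⁻¹ W hW
    rw [inv_inv] at h1
    exact mul_mem (mul_mem hb (Algebra.subset_adjoin (L.sub_mem h1 hW))) hb'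
  | zero => exact zero_mem _
  | add x y _ _ hx hy => exact add_mem hx hy
  | smul q x _ hx => exact Subalgebra.smul_mem _ hx q

theorem VI_sub (x : Γ) {b : A} (hb : b ∈ Algebra.adjoin ℚ (L : Set A)) :
    ρ (x⁻¹ * g * x)⁻¹ * b * ρ (x⁻¹ * g * x) - b ∈ VI ρ g L := by
  obtain ⟨h, hh⟩ : ∃ h, h = x⁻¹ * g * x := ⟨_, rfl⟩
  have e1 : ρ h * ρ h⁻¹ = 1 := by rw [← map_mul, mul_inv_cancel, map_one]
  have e2 : ρ h⁻¹ * ρ h = 1 := by rw [← map_mul, inv_mul_cancel, map_one]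
  rw [← hh]
  induction hb using Algebra.adjoin_induction with
  | mem W hW =>
    exact Submodule.subset_span ⟨1, one_mem _, 1, one_mem _, W, hW, x, by
      rw [one_mul, mul_one, hh]⟩
  | algebraMap c =>
    rw [← Algebra.commutes, mul_assoc, e2, mul_one, sub_self]
    exact zero_mem _
  | add a b _ _ h1 h2 =>
    rw [mul_add, add_mul, add_sub_add_comm]
    exact add_mem h1 h2
  | mul a b ha hb h1 h2 =>
    have h3 := VI_conj hL h⁻¹ hb
    rw [inv_inv] at h3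
    have e : ρ h⁻¹ * (a * b) * ρ h - a * b =
        1 * (ρ h⁻¹ * a * ρ h - a) * (ρ h⁻¹ * b * ρ h) + a * (ρ h⁻¹ * b * ρ h - b) * 1 := by
      have e3 : ρ h⁻¹ * (a * b) * ρ h = ρ h⁻¹ * a * ρ h * (ρ h⁻¹ * b * ρ h) := by
        calc ρ h⁻¹ * (a * b) * ρ h = ρ h⁻¹ * a * (ρ h * ρ h⁻¹) * b * ρ h := by
              rw [e1, mul_one, mul_assoc (ρ h⁻¹) a b]
          _ = _ := by simp only [mul_assoc]
      rw [e3]
      noncomm_ring
    rw [e]
    exact add_mem (VI_mul h1 (one_mem _) h3) (VI_mul h2 ha (one_mem _))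

theorem VS_hyp {m : ℕ} (hm : LNil (Jn (ρ g) (ρ g⁻¹) L 1 : Set A) m) :
    Hyp (VS ρ g L) (Jn (ρ g) (ρ g⁻¹) L 1 : Set A) m := by
  refine ⟨hm, ?_, ?_⟩
  · rintro _ ⟨b, hb, b', hb', W, hW, x, rfl⟩ w hw
    exact ⟨b, hb, b' * w, mul_mem hb' (VI_le hL (Submodule.subset_span hw)), W, hW, x,
      mul_assoc _ _ _⟩
  · rintro _ ⟨b, hb, b', hb', W, hW, x, rfl⟩
    have e1 : ρ x⁻¹ * ρ x = 1 := by rw [← map_mul, inv_mul_cancel, map_one]
    have e2 : ρ g⁻¹ * ρ g = 1 := by rw [← map_mul, inv_mul_cancel, map_one]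
    have h1 := Jn_mul (i := 1) (j := 0) (Jn_step e2 (hL x W hW))
      (Jn_adj (VI_conj hL x (mul_mem hb' hb)))
    have e3 : ρ g⁻¹ * (ρ x * W * ρ x⁻¹) * ρ g - ρ x * W * ρ x⁻¹ =
        ρ x * (ρ (x⁻¹ * g * x)⁻¹ * W * ρ (x⁻¹ * g * x) - W) * ρ x⁻¹ := by
      have e4 : ρ x * ρ (x⁻¹ * g * x)⁻¹ = ρ g⁻¹ * ρ x := by
        rw [← map_mul, ← map_mul]
        congr 1
        group
      have e5 : ρ (x⁻¹ * g * x) * ρ x⁻¹ = ρ x⁻¹ * ρ g := by
        rw [← map_mul, ← map_mul]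
        congr 1
        group
      rw [mul_sub, sub_mul, ← mul_assoc (ρ x), ← mul_assoc (ρ x), e4,
        mul_assoc _ (ρ (x⁻¹ * g * x)), e5]
      simp only [mul_assoc]
    rw [e3] at h1
    generalize ρ (x⁻¹ * g * x)⁻¹ * W * ρ (x⁻¹ * g * x) - W = D at h1 ⊢
    refine ⟨b * ρ x⁻¹, ρ x * D * b', ?_, ?_⟩
    · calc b * D * b' = b * (ρ x⁻¹ * ρ x) * D * b' := by rw [e1, mul_one]
        _ = _ := by simp only [mul_assoc]
    · have e4 : ρ x * D * ρ x⁻¹ * (ρ x * (b' * b) * ρ x⁻¹) = ρ x * D * b' * (b * ρ x⁻¹) := by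
        calc _ = ρ x * D * (ρ x⁻¹ * ρ x) * (b' * b) * ρ x⁻¹ := by simp only [mul_assoc]
          _ = _ := by rw [e1, mul_one]; simp only [mul_assoc]
      exact e4 ▸ h1

end Ideal

theorem Jn_nil {A : Type*} [Ring A] [Algebra ℚ A] {g g' : A} {L : Submodule ℚ A} {m : ℕ}
    (hm : ∀ l : List (Fin 4 × A), (∀ p ∈ l, p.2 ∈ L) → m ≤ nC l →
      (l.map (letter g g')).prod = 0) : LNil (Jn g g' L 1 : Set A) m := by
  have h0 : Jn g g' L m = ⊥ := by
    refine Submodule.span_eq_bot.2 ?_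
    rintro _ ⟨l, h1, h2, rfl⟩
    exact hm l h1 h2
  have h1 : ∀ l : List A, (∀ v ∈ l, v ∈ Jn g g' L 1) → l.prod ∈ Jn g g' L l.length :=
    fun l hl => by
      induction l with
      | nil => exact Jn_one
      | cons a l ih =>
        rw [List.prod_cons, List.length_cons, add_comm]
        exact Jn_mul (hl a List.mem_cons_self) (ih fun v hv => hl v (List.mem_cons_of_mem _ hv))
  intro l hl h2
  have h3 := h1 l hl
  rwa [h2, h0] at h3

theorem logs_adj {A : Type*} [Ring A] [Algebra ℚ A] {Γ : Type*} [Group Γ] {ρ : Γ →* A}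
    {N : Subgroup Γ} {w : Γ} (hw : w ∈ N) (he : IsNilpotent (ρ w - 1)) :
    ρ w ∈ Algebra.adjoin ℚ (Submodule.span ℚ (logs ρ N) : Set A) := by
  obtain ⟨k, X, hk, hX⟩ := setup_log he
  rw [add_sub_cancel] at hX
  have h3 : X ∈ Submodule.span ℚ (logs ρ N) :=
    Submodule.subset_span ⟨⟨k, hk⟩, w, hw, by rw [← hX, E_eq_exp hk]⟩
  rw [← hX]
  exact Subalgebra.sum_mem _ fun i _ =>
    Subalgebra.smul_mem _ (pow_mem (Algebra.subset_adjoin h3) i) _

/-- All products of `m` elements `ρ z - 1` vanish, `z` a commutator of weight `e + 1`. -/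
def QQ {A : Type*} [Ring A] {Γ : Type*} [Group Γ] (ρ : Γ →* A) (g : Γ) (e m : ℕ) : Prop :=
  ∀ f : Fin m → ℕ → Γ, ulPr ρ g e (fun _ => 1) f = 0

/-- The bounded identity in characteristic zero. -/
theorem ident0 {R M : Type} [CommRing R] [Algebra ℚ R] [AddCommGroup M] [Module R M]
    [Module.Finite R M] {Γ : Type*} [Group Γ] (ρ : Γ →* Module.End R M) {n : ℕ} {g : Γ}
    (h : Eng n g) : ∃ e m, QQ ρ g e m := by
  let _ : Algebra ℚ (Module.End R M) :=
    ((algebraMap R (Module.End R M)).comp (algebraMap ℚ R)).toAlgebra'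
      fun c x => Algebra.commutes (algebraMap ℚ R c) x
  obtain ⟨e, he⟩ := ultraM ρ h
  have := ZN_normal g e
  obtain ⟨-, m, hm⟩ := engineM ρ (ZN g e) h
  have hL := fun x => logs_conj ρ (ZN g e) x
  obtain ⟨K, hK⟩ := mod_nil (VS_hyp (g := g) hL (Jn_nil hm))
  refine ⟨e + 1, K, fun f => hK.span ℚ _ (fun U hU => ?_) (by simp)⟩
  obtain ⟨i, rfl⟩ := List.mem_ofFn.1 hU
  have h1 := gcm_mem g (f i) e
  have h2 := VI_mul (VI_sub (g := g) hL (f i (e + 1)) (logs_adj h1 (he _ h1)))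
    (logs_adj (inv_mem h1) (he _ (inv_mem h1))) (one_mem _)
  have e1 : ρ (zw g (f i) e)⁻¹ * ρ (zw g (f i) e) = 1 := by
    rw [← map_mul, inv_mul_cancel, map_one]
  rw [mul_one, mul_sub, e1] at h2
  simpa only [zw, map_one, one_mul, map_mul, mul_assoc, SetLike.mem_coe, VI] using h2

/-- The bounded identity makes the group generated by the commutators nilpotent. -/
theorem QQ.nil {A : Type*} [Ring A] {Γ : Type*} [Group Γ] {ρ : Γ →* A}
    (hρ : Function.Injective ρ) {g : Γ} {e m : ℕ} (h : QQ ρ g e m) :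
    (ZN g e).lowerCentralSeries (m + 1) = ⊥ := by
  obtain ⟨F, hmul, han, h1, hS, h0⟩ := final_filt ℤ {a : A | ∃ f, a = ρ (zw g f e) - 1} m
    fun l hl hm => by
      subst hm
      choose f hf using fun i : Fin l.length => hl _ (List.get_mem l i)
      have h2 := h f
      simp only [ulPr, map_one, one_mul, ← hf, List.ofFn_get] at h2
      exact h2
  refine final_lcs ρ hρ hmul han h1 h0 ?_
  rintro _ ⟨f, rfl⟩
  exact ⟨1, _, hS _ ⟨f, rfl⟩, by simp⟩

/-- The bounded identity forces subnormality. -/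
theorem QQ.subnormal {A : Type*} [Ring A] {Γ : Type*} [Group Γ] {ρ : Γ →* A}
    (hρ : Function.Injective ρ) {g : Γ} {e m n : ℕ} (h : QQ ρ g e m) (hE : Eng n g) :
    (Subgroup.zpowers g).IsSubnormal := by
  have := ZN_normal g e
  have h1 : Group.IsNilpotent (ZN g e) :=
    (Subgroup.isNilpotent_iff_lowerCentralSeries _).2 ⟨_, h.nil hρ⟩
  have h2 := baer_L1 (T := (ZN g e : Set Γ)) hE
    (by rw [Subgroup.normalizer_eq_top]; trivial) (by rwa [Subgroup.closure_eq])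
  rw [Set.insert_eq, Subgroup.closure_union, Subgroup.closure_eq,
    ← Subgroup.zpowers_eq_closure] at h2
  obtain ⟨c, hc⟩ := Subgroup.nilpotent_iff_lowerCentralSeries.1 h2
  exact Subgroup.IsSubnormal.trans le_sup_left
    (final_subnormal (S := ⊤) inferInstance le_top hc) (ZN_subnormal g e)

end Pool.Agent.Lib.MP_b39e30_al.Lc
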