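import Pool.Agent.Lib.MP_b39e30_al.Lc.Tr

/-!
In the endomorphism ring of a finitely generated module over a commutative `ℚ`-algebra, a
multiplicatively closed set whose elements are cyclic shifts of elements of a nilpotent set is
nilpotent. Induction on the number of generators.
-/

set_option autoImplicit false

namespace Pool.Agent.Lib.MP_b39e30_al.Lc

open Pool.Agent.Lib.MP_b39e30_al.Lin

/-- All products of `K` elements of `V` vanish. -/
def LNil {E : Type*} [MonoidWithZero E] (V : Set E) (K : ℕ) : Prop :=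
  ∀ l : List E, (∀ v ∈ l, v ∈ V) → l.length = K → l.prod = 0

/-- `V` is closed under products and its elements are cyclic shifts of elements of the nilpotent
set `J`. -/
structure Hyp {E : Type*} [MonoidWithZero E] (V J : Set E) (m : ℕ) : Prop where
  nil : LNil J m
  mul : ∀ v ∈ V, ∀ w ∈ V, v * w ∈ V
  cyc : ∀ v ∈ V, ∃ p q, v = p * q ∧ q * p ∈ J

theorem Hyp.map {E E' F : Type*} [MonoidWithZero E] [MonoidWithZero E'] [FunLike F E E']
    [MonoidWithZeroHomClass F E E'] (ψ : F) {V J : Set E} {m : ℕ} (h : Hyp V J m) :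
    Hyp (ψ '' V) (ψ '' J) m := by
  refine ⟨fun l hl hm => ?_, ?_, ?_⟩
  · obtain ⟨l', h1, rfl⟩ := eng_lift _ _ l hl
    rw [← map_list_prod, h.nil l' h1 (by simpa using hm), map_zero]
  · rintro _ ⟨v, hv, rfl⟩ _ ⟨w, hw, rfl⟩
    exact ⟨v * w, h.mul v hv w hw, map_mul ψ v w⟩
  · rintro _ ⟨v, hv, rfl⟩
    obtain ⟨p, q, rfl, h1⟩ := h.cyc v hv
    exact ⟨ψ p, ψ q, map_mul ψ p q, q * p, h1, map_mul ψ q p⟩

theorem Hyp.pi {E : Type*} [MonoidWithZero E] (C : Type*) {V J : Set E} {m : ℕ} (h : Hyp V J m) :
    Hyp {a : C → E | ∀ c, a c ∈ V} {a : C → E | ∀ c, a c ∈ J} m := by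
  refine ⟨fun l hl hm => funext fun c => ?_, fun v hv w hw c => h.mul _ (hv c) _ (hw c),
    fun v hv => ?_⟩
  · have h1 := map_list_prod (Pi.evalMonoidHom (fun _ : C => E) c) l
    refine h1.trans (h.nil _ (fun t ht => ?_) (by simpa using hm))
    obtain ⟨s, h2, rfl⟩ := List.mem_map.1 ht
    exact hl s h2 c
  · choose p q h1 h2 using fun c => h.cyc _ (hv c)
    exact ⟨p, q, funext h1, h2⟩

theorem LNil.mono {E : Type*} [MonoidWithZero E] {V : Set E} {K K' : ℕ} (h : LNil V K)
    (hK : K ≤ K') : LNil V K' := fun l hl hm => by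
  rw [← List.take_append_drop K l, List.prod_append,
    h _ (fun v hv => hl v (List.mem_of_mem_take hv)) (by rw [List.length_take]; omega), zero_mul]

theorem LNil.span (K : Type*) [CommRing K] {A : Type*} [Ring A] [Algebra K A] {V : Set A} {m : ℕ}
    (h : LNil V m) : LNil (Submodule.span K V : Set A) m := by
  have h1 : ∀ l : List A, (∀ v ∈ l, v ∈ Submodule.span K V) →
      l.prod ∈ Submodule.span K V ^ l.length := fun l hl => by
    induction l with
    | nil => exact Submodule.one_le.1 (by simp)
    | cons a l ih =>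
      rw [List.prod_cons, List.length_cons, pow_succ']
      exact Submodule.mul_mem_mul (hl a List.mem_cons_self)
        (ih fun v hv => hl v (List.mem_cons_of_mem _ hv))
  intro l hl hm
  have h2 := h1 l hl
  rw [hm, Submodule.span_pow] at h2
  refine (Submodule.mem_bot K).1 ((Submodule.span_le.2 fun x hx => ?_) h2)
  obtain ⟨f, rfl⟩ := Set.mem_pow.1 hx
  refine h _ (fun t ht => ?_) (by simp)
  obtain ⟨i, rfl⟩ := List.mem_ofFn.1 ht
  exact (f i).2

theorem free_nil {ι : Type} [Fintype ι] [DecidableEq ι] {R : Type*} [CommRing R] [Algebra ℚ R]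
    {V J : Set (Matrix ι ι R)} {m : ℕ} (h : Hyp V J m) : ∃ K, LNil V K := by
  obtain ⟨e, he⟩ := trace_unif (Submodule.span ℚ J : Set (Matrix ι ι R)) (m := m) fun a ha => by
    rw [← List.prod_replicate]
    exact h.nil.span ℚ _ (fun v hv => List.eq_of_mem_replicate hv ▸ ha) (by simp)
  have h1 : ∀ a ∈ Submodule.span ℚ V, ∃ t ∈ Submodule.span ℚ J, a.trace = t.trace := by
    intro a ha
    induction ha using Submodule.span_induction with
    | mem a ha =>
      obtain ⟨p, q, rfl, h1⟩ := h.cyc a ha
      exact ⟨_, Submodule.subset_span h1, Matrix.trace_mul_comm _ _⟩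
    | zero => exact ⟨0, zero_mem _, rfl⟩
    | add x y _ _ hx hy =>
      obtain ⟨s, h1, h2⟩ := hx
      obtain ⟨t, h3, h4⟩ := hy
      exact ⟨s + t, add_mem h1 h3, by rw [Matrix.trace_add, Matrix.trace_add, h2, h4]⟩
    | smul q x _ hx =>
      obtain ⟨s, h1, h2⟩ := hx
      exact ⟨q • s, Submodule.smul_mem _ _ h1, by rw [Matrix.trace_smul, Matrix.trace_smul, h2]⟩
  have h2 : ∀ (l : List (Matrix ι ι R)) (a : Matrix ι ι R), (∀ W ∈ a :: l, W ∈ Submodule.span ℚ V) →
      (a :: l).prod ∈ Submodule.span ℚ V := by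
    intro l
    induction l with
    | nil => exact fun a ha => by simpa using ha
    | cons b l ih =>
      intro a ha
      have h3 := Submodule.mul_mem_mul (ha a List.mem_cons_self)
        (ih b fun W hW => ha W (List.mem_cons_of_mem _ hW))
      rw [Submodule.span_mul_span] at h3
      refine Submodule.span_mono ?_ h3
      rintro _ ⟨x, hx, y, hy, rfl⟩
      exact h.mul x hx y hy
  obtain ⟨K, hK⟩ := trace_nil (Submodule.span ℚ V) (e := e) fun l hl0 hl => by
    obtain ⟨a, l, rfl⟩ := List.exists_cons_of_ne_nil hl0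
    obtain ⟨t, h3, h4⟩ := h1 _ (h2 l a hl)
    rw [h4]
    exact he t h3
  exact ⟨K, fun l hl hm => hK l (fun v hv => Submodule.subset_span (hl v hv)) hm⟩

/-- Polarisation of a power. -/
theorem pol_pow {R : Type*} [CommRing R] [Algebra ℚ R] (L : Ideal R) {N : ℕ}
    (h : ∀ s ∈ L, s ^ N = 0) (y : Fin N → R) (hy : ∀ i, y i ∈ L) : ∏ i, y i = 0 := by
  have h1 := polar (κ := Unit) (μ := Fin N)
    ((L.restrictScalars ℚ).comap (LinearMap.proj () : (Unit → R) →ₗ[ℚ] R))
    (∏ i : Fin N, MvPolynomial.X (i, ())) (fun z hz a => by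
      simp only [map_prod, MvPolynomial.eval_X, Finset.univ_unique, Finset.sum_singleton,
        Algebra.smul_def, Finset.prod_mul_distrib, Finset.prod_const, Finset.card_univ,
        Fintype.card_fin]
      rw [h (z default ()) (hz _), mul_zero]) (fun i _ => y i) hy
  simpa using h1

section Module

variable {R M : Type} [CommRing R] [AddCommGroup M] [Module R M]

/-- A family of endomorphisms acts on the module of families. -/
def piEnd (C R M : Type) [CommRing R] [AddCommGroup M] [Module R M] :
    (C → Module.End R M) →+* Module.End (C → R) (C → M) where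
  toFun a :=
    { toFun := fun v c => a c (v c)
      map_add' := fun v w => funext fun c => map_add (a c) (v c) (w c)
      map_smul' := fun r v => funext fun c => map_smul (a c) (r c) (v c) }
  map_one' := rfl
  map_mul' _ _ := rfl
  map_zero' := rfl
  map_add' _ _ := rfl

theorem pi_span (C : Type) {d : ℕ} {b : Fin d → M} (hb : Submodule.span R (Set.range b) = ⊤) :
    Submodule.span (C → R) (Set.range fun (j : Fin d) (_ : C) => b j) = ⊤ := by
  refine eq_top_iff.2 fun v _ => ?_
  choose a ha using fun c => (Submodule.mem_span_range_iff_exists_fun R).1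
    (hb.ge (Submodule.mem_top : v c ∈ ⊤))
  refine (Submodule.mem_span_range_iff_exists_fun _).2 ⟨fun j c => a c j, funext fun c => ?_⟩
  rw [Finset.sum_apply]
  exact ha c

theorem loc_span {d : ℕ} {b : Fin (d + 1) → M} (hb : Submodule.span R (Set.range b) = ⊤)
    {r : Fin (d + 1) → R} (hr : ∑ j, r j • b j = 0) (i : Fin (d + 1)) :
    Submodule.span (Localization.Away (r i)) (Set.range fun j : Fin d =>
      TensorProduct.tmul R (1 : Localization.Away (r i)) (b (i.succAbove j))) = ⊤ := by
  let A := Localization.Away (r i)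
  obtain ⟨S, hS⟩ : ∃ S : Submodule A (TensorProduct R A M), S = Submodule.span A
    (Set.range fun j : Fin d => TensorProduct.tmul R (1 : A) (b (i.succAbove j))) := ⟨_, rfl⟩
  have h0 : ∀ j, TensorProduct.tmul R (1 : A) (b (i.succAbove j)) ∈ S :=
    fun j => hS ▸ Submodule.subset_span ⟨j, rfl⟩
  have h1 : TensorProduct.tmul R (1 : A) (b i) ∈ S := by
    obtain ⟨u, hu⟩ := IsLocalization.Away.algebraMap_isUnit (S := A) (r i)
    rw [Fin.sum_univ_succAbove _ i, add_eq_zero_iff_eq_neg] at hr
    have h2 : (u : A) • TensorProduct.tmul R (1 : A) (b i) ∈ S := by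
      rw [hu, algebraMap_smul, ← TensorProduct.tmul_smul, hr, TensorProduct.tmul_neg,
        TensorProduct.tmul_sum]
      refine neg_mem (S.sum_mem fun j _ => ?_)
      rw [TensorProduct.tmul_smul]
      exact S.smul_of_tower_mem _ (h0 j)
    exact (S.smul_mem_iff' u).1 h2
  have h2 : ∀ j, TensorProduct.tmul R (1 : A) (b j) ∈ S := fun j =>
    Fin.succAboveCases i h1 h0 j
  rw [← hS]
  refine eq_top_iff.2 fun z _ => ?_
  induction z using TensorProduct.induction_on with
  | zero => exact zero_mem _
  | add x y hx hy => exact add_mem (hx trivial) (hy trivial)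
  | tmul a w =>
    obtain ⟨c, rfl⟩ := (Submodule.mem_span_range_iff_exists_fun R).1
      (hb.ge (Submodule.mem_top : w ∈ ⊤))
    have h3 : TensorProduct.tmul R a (∑ j, c j • b j) =
        a • TensorProduct.tmul R (1 : A) (∑ j, c j • b j) := by
      rw [TensorProduct.smul_tmul', smul_eq_mul, mul_one]
    rw [h3, TensorProduct.tmul_sum]
    refine S.smul_mem _ (S.sum_mem fun j _ => ?_)
    rw [TensorProduct.tmul_smul]
    exact S.smul_of_tower_mem _ (h2 j)

/-- The ideal generated by the entries of the relations. -/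
def relI {d : ℕ} (R : Type) [CommRing R] [Module R M] (b : Fin d → M) : Ideal R where
  carrier := {s | ∃ r : Fin d → Fin d → R, (∀ i, ∑ j, r i j • b j = 0) ∧ s = ∑ i, r i i}
  zero_mem' := ⟨0, by simp, by simp⟩
  add_mem' := by
    rintro _ _ ⟨r, h1, rfl⟩ ⟨r', h2, rfl⟩
    exact ⟨r + r', fun i => by simp [add_smul, Finset.sum_add_distrib, h1 i, h2 i],
      by simp [Finset.sum_add_distrib]⟩
  smul_mem' := by
    rintro c _ ⟨r, h1, rfl⟩
    exact ⟨c • r, fun i => by simp [mul_smul, ← Finset.smul_sum, h1 i], by simp [Finset.mul_sum]⟩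

theorem relI_mem {d : ℕ} {b : Fin d → M} {r : Fin d → R} (hr : ∑ j, r j • b j = 0) (i : Fin d) :
    r i ∈ relI R b := by
  refine ⟨Pi.single i r, fun k => ?_, ?_⟩
  · by_cases h : k = i
    · subst h
      simpa using hr
    · simp [h]
  · rw [Finset.sum_eq_single i (fun k _ h => by simp [h]) (by simp)]
    simp

theorem quot_nil [Algebra ℚ R] {d : ℕ} {b : Fin d → M} (hb : Submodule.span R (Set.range b) = ⊤)
    {V J : Set (Module.End R M)} {m : ℕ} (h : Hyp V J m) :
    ∃ K, ∀ l : List (Module.End R M), (∀ v ∈ l, v ∈ V) → l.length = K →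
      ∀ w, l.prod w ∈ relI R b • (⊤ : Submodule R M) := by
  have h0 : ∀ f : Module.End R M, ∃ A : Matrix (Fin d) (Fin d) R, A.Represents b f := fun f => by
    obtain ⟨A, rfl⟩ := Matrix.isRepresentation.toEnd_surjective R b hb f
    exact ⟨A, Matrix.isRepresentation.toEnd_represents R b hb A⟩
  choose A hA using h0
  let π := (Ideal.Quotient.mk (relI R b)).mapMatrix (m := Fin d)
  have h1 : ∀ f (B : Matrix (Fin d) (Fin d) R), B.Represents b f → π (A f) = π B := by
    intro f B hB
    ext i j
    refine Ideal.Quotient.eq.2 (relI_mem (r := fun i => A f i j - B i j) ?_ i)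
    simp only [sub_smul, Finset.sum_sub_distrib]
    rw [Matrix.represents_iff'.1 (hA f) j, Matrix.represents_iff'.1 hB j, sub_self]
  let φ : Module.End R M →*₀ Matrix (Fin d) (Fin d) (R ⧸ relI R b) :=
    { toFun := fun f => π (A f)
      map_zero' := by rw [h1 0 0 Matrix.Represents.zero, map_zero]
      map_one' := by rw [h1 1 1 Matrix.Represents.one, map_one]
      map_mul' := fun f g => by rw [h1 _ _ ((hA f).mul (hA g)), map_mul] }
  obtain ⟨K, hK⟩ := free_nil (h.map φ)
  refine ⟨K, fun l hl hm w => ?_⟩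
  have h2 := hK (l.map φ) (fun v hv => by
    obtain ⟨v', h3, rfl⟩ := List.mem_map.1 hv
    exact ⟨v', hl v' h3, rfl⟩) (by simpa using hm)
  rw [← map_list_prod] at h2
  obtain ⟨c, rfl⟩ := (Submodule.mem_span_range_iff_exists_fun R).1
    (hb.ge (Submodule.mem_top : w ∈ ⊤))
  rw [map_sum]
  refine Submodule.sum_mem _ fun j _ => ?_
  rw [map_smul, ← Matrix.represents_iff'.1 (hA l.prod) j]
  refine Submodule.smul_mem _ _ (Submodule.sum_mem _ fun i _ =>
    Submodule.smul_mem_smul ?_ Submodule.mem_top)
  exact Ideal.Quotient.eq_zero_iff_mem.1 (congrFun (congrFun h2 i) j)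

end Module

theorem mod_nil_aux (d : ℕ) : ∀ (R M : Type) [CommRing R] [Algebra ℚ R] [AddCommGroup M]
    [Module R M] (b : Fin d → M), Submodule.span R (Set.range b) = ⊤ →
    ∀ (V J : Set (Module.End R M)) (m : ℕ), Hyp V J m → ∃ K, LNil V K := by
  induction d with
  | zero =>
    intro R M _ _ _ _ b hb V J m _
    refine ⟨0, fun l _ _ => LinearMap.ext fun w => ?_⟩
    have h1 : l.prod w ∈ Submodule.span R (Set.range b) := hb.ge Submodule.mem_top
    simpa using h1
  | succ d ih =>
    intro R M _ _ _ _ b hb V J m h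
    have h1 : ∀ i : Fin (d + 1), ∃ K N : ℕ, ∀ r : Fin (d + 1) → R, ∑ j, r j • b j = 0 →
        ∀ l : List (Module.End R M), (∀ v ∈ l, v ∈ V) → l.length = K →
        ∀ w, r i ^ N • l.prod w = 0 := by
      intro i
      let C : Type := {r : Fin (d + 1) → R // ∑ j, r j • b j = 0} × (ℕ → V) × M
      let r : Fin (d + 1) → C → R := fun j c => c.1.1 j
      have hr : ∑ j, r j • (fun _ : C => b j) = 0 := funext fun c => by
        rw [Finset.sum_apply]
        exact c.1.2
      let ψ := (Module.End.baseChangeHom (C → R) (Localization.Away (r i)) (C → M)).toRingHom.comp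
        (piEnd C R M)
      obtain ⟨K, hK⟩ := ih _ _ _ (loc_span (pi_span C hb) hr i) _ _ m ((h.pi C).map ψ)
      let a : Fin K → C → Module.End R M := fun k c => (c.2.1 k).1
      have h2 := hK ((List.ofFn a).map ψ) (fun v hv => by
        obtain ⟨v', h3, rfl⟩ := List.mem_map.1 hv
        obtain ⟨k, rfl⟩ := List.mem_ofFn.1 h3
        exact ⟨_, fun c => (c.2.1 k).2, rfl⟩) (by simp)
      rw [← map_list_prod] at h2
      have h3 : TensorProduct.mk (C → R) (Localization.Away (r i)) (C → M) 1
          (piEnd C R M (List.ofFn a).prod fun c => c.2.2) = 0 :=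
        LinearMap.congr_fun h2 (TensorProduct.tmul _ 1 fun c => c.2.2)
      obtain ⟨⟨_, N, rfl⟩, h4⟩ :=
        (IsLocalizedModule.eq_zero_iff (Submonoid.powers (r i)) _).1 h3
      refine ⟨K + 1, N, fun s hs l hl hm w => ?_⟩
      obtain ⟨v, l, rfl⟩ := List.exists_cons_of_length_eq_add_one hm
      have hm' : l.length = K := by simpa using hm
      let c : C := (⟨s, hs⟩, fun k => if hk : k < l.length then
        ⟨l[k], hl _ (List.mem_cons_of_mem _ (List.getElem_mem hk))⟩ else
        ⟨v, hl v List.mem_cons_self⟩, w)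
      have h5 : s i ^ N • (List.ofFn a).prod c w = 0 := congrFun h4 c
      have h6 : (List.ofFn a).prod c = l.prod := by
        refine (map_list_prod (Pi.evalMonoidHom (fun _ : C => Module.End R M) c) _).trans ?_
        rw [List.map_ofFn]
        congr 1
        subst hm'
        refine List.ext_getElem (by simp) fun k h7 h8 => ?_
        simp [a, c, h8]
      rw [List.prod_cons, Module.End.mul_apply, ← map_smul, ← h6, h5, map_zero]
    choose K N h1 using h1
    obtain ⟨K0, h0⟩ := quot_nil hb h
    obtain ⟨K1, hK1⟩ : ∃ K1, ∀ i, K i ≤ K1 := ⟨_, fun i => Finset.le_sup (Finset.mem_univ i)⟩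
    obtain ⟨N1, hN1⟩ : ∃ N1, ∀ i, N i ≤ N1 := ⟨_, fun i => Finset.le_sup (Finset.mem_univ i)⟩
    have h2 : ∀ l : List (Module.End R M), (∀ v ∈ l, v ∈ V) → l.length = K1 → ∀ w,
        ∀ y : Fin ((d + 1) * N1 + 1) → R, (∀ k, y k ∈ relI R b) → (∏ k, y k) • l.prod w = 0 := by
      intro l hl hm w y hy
      let I : Ideal R := LinearMap.ker (LinearMap.toSpanSingleton R M (l.prod w))
      have h3 := pol_pow ((relI R b).map (Ideal.Quotient.mk I)) (N := (d + 1) * N1 + 1)
        (fun s hs => ?_) (fun k => Ideal.Quotient.mk I (y k)) fun k => Ideal.mem_map_of_mem _ (hy k)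
      · rw [← map_prod] at h3
        exact Ideal.Quotient.eq_zero_iff_mem.1 h3
      · obtain ⟨_, ⟨r, hr, rfl⟩, rfl⟩ :=
          (Ideal.mem_map_iff_of_surjective _ Ideal.Quotient.mk_surjective).1 hs
        rw [← map_pow, Ideal.Quotient.eq_zero_iff_mem]
        have h4 := Ideal.sum_pow_mem_span_pow Finset.univ (fun i => r i i) N1
        rw [Finset.card_univ, Fintype.card_fin] at h4
        refine Ideal.span_le.2 ?_ h4
        rintro _ ⟨i, -, rfl⟩
        have h5 := h1 i (r i) (hr i) (l.take (K i)) (fun v hv => hl v (List.mem_of_mem_take hv))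
          (by rw [List.length_take]; have := hK1 i; omega) ((l.drop (K i)).prod w)
        rw [← Module.End.mul_apply, ← List.prod_append, List.take_append_drop] at h5
        obtain ⟨t, ht⟩ := Nat.exists_eq_add_of_le (hN1 i)
        change r i i ^ (N1 + 1) • l.prod w = 0
        rw [ht, add_assoc, add_comm, pow_add, mul_smul, h5, smul_zero]
    have h3 : ∀ (j : ℕ) (Ψ : Module.End R M),
        (∀ w, ∀ y : Fin j → R, (∀ k, y k ∈ relI R b) → (∏ k, y k) • Ψ w = 0) →
        ∀ l : List (Module.End R M), (∀ v ∈ l, v ∈ V) → l.length = K0 * j → Ψ * l.prod = 0 := by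
      intro j
      induction j with
      | zero =>
        intro Ψ hΨ l _ _
        have h4 : Ψ = 0 := LinearMap.ext fun w => by simpa using hΨ w Fin.elim0 fun k => k.elim0
        rw [h4, zero_mul]
      | succ j ih2 =>
        intro Ψ hΨ l hl hm
        rw [Nat.mul_succ] at hm
        rw [← List.take_append_drop K0 l, List.prod_append, ← mul_assoc]
        refine ih2 _ (fun w y hy => ?_) _ (fun v hv => hl v (List.mem_of_mem_drop hv))
          (by rw [List.length_drop]; omega)
        rw [Module.End.mul_apply]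
        refine Submodule.smul_induction_on (p := fun u => (∏ k, y k) • Ψ u = 0)
          (h0 (l.take K0) (fun v hv => hl v (List.mem_of_mem_take hv))
            (by rw [List.length_take]; omega) w) (fun s hs u _ => ?_) fun u u' h4 h5 => ?_
        · have h4 := hΨ u (Fin.cons s y) fun k => Fin.cases hs hy k
          rw [Fin.prod_univ_succ, Fin.cons_zero] at h4
          rw [map_smul, smul_smul, mul_comm]
          exact h4
        · rw [map_add, smul_add, h4, h5, add_zero]
    refine ⟨K1 + K0 * ((d + 1) * N1 + 1), fun l hl hm => ?_⟩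
    rw [← List.take_append_drop K1 l, List.prod_append]
    exact h3 _ _ (h2 _ (fun v hv => hl v (List.mem_of_mem_take hv))
      (by rw [List.length_take]; omega)) _ (fun v hv => hl v (List.mem_of_mem_drop hv))
      (by rw [List.length_drop]; omega)

/-- The module form of the trace argument. -/
theorem mod_nil {R M : Type} [CommRing R] [Algebra ℚ R] [AddCommGroup M] [Module R M]
    [Module.Finite R M] {V J : Set (Module.End R M)} {m : ℕ} (h : Hyp V J m) : ∃ K, LNil V K := by
  obtain ⟨d, b, hb⟩ := Module.Finite.exists_fin (R := R) (M := M)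
  exact mod_nil_aux d R M b hb V J m h

end Pool.Agent.Lib.MP_b39e30_al.Lc
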