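import Pool.Agent.Lib.MP_b39e30_al.Lin.GMain
import Pool.Agent.Lib.MP_b39e30_al.Lin.MMain
import Pool.Agent.Lib.MP_b39e30_al.Lin.MLoc

/-!
Let `R` be any commutative ring, `M` a finitely generated `R`-module with torsion-free additive
group and `G` any group of `R`-automorphisms of `M`. Every bounded left Engel element of `G`
generates a subnormal subgroup. The map `y ↦ y⁻¹ * g⁻¹ * y * g` is the commutator `[y, g]` of the
problem file.
-/

set_option autoImplicit false

namespace Pool.Agent.Lib.MP_b39e30_al.Lc.OldLinearBaer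

open Pool.Agent.Lib.MP_b39e30_al.Lin

theorem result (R M : Type) [CommRing R] [AddCommGroup M] [Module R M] [Module.Finite R M]
    [IsAddTorsionFree M] (G : Subgroup (M ≃ₗ[R] M)) (g : G)
    (hE : ∃ n : ℕ, ∀ x : G, (fun y => y⁻¹ * g⁻¹ * y * g)^[n] x = 1) :
    (Subgroup.zpowers g).IsSubnormal := by
  obtain ⟨n, hn⟩ := hE
  obtain ⟨R', _, _, M', _, _, _, θ, hθ⟩ := exists_rat_module R M
  refine mainM ((θ.comp LinearEquiv.automorphismGroup.toLinearMapMonoidHom).comp G.subtype) ?_ hn
  exact (hθ.comp LinearEquiv.toLinearMap_injective).comp Subtype.val_injective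

/-- The matrix form. -/
theorem matrix (R : Type) [CommRing R] [IsAddTorsionFree R] (d : ℕ)
    (G : Subgroup (GL (Fin d) R)) (g : G)
    (hE : ∃ n : ℕ, ∀ x : G, (fun y => y⁻¹ * g⁻¹ * y * g)^[n] x = 1) :
    (Subgroup.zpowers g).IsSubnormal := by
  obtain ⟨n, hn⟩ := hE
  obtain ⟨R', _, _, φ, hφ⟩ := exists_rat_algebra R
  refine mainG ((φ.mapMatrix.toMonoidHom.comp (Units.coeHom _)).comp G.subtype) ?_ hn
  exact ((Matrix.map_injective hφ).comp Units.val_injective).comp Subtype.val_injective

end Pool.Agent.Lib.MP_b39e30_al.Lc.OldLinearBaer
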