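import Pool.Agent.Lib.MP_b39e30_al.Lc.Id

/-!
The bounded identity holds uniformly over all modules without small torsion (reduced product).
-/

set_option autoImplicit false

namespace Pool.Agent.Lib.MP_b39e30_al.Lc

open Pool.Agent.Lib.MP_b39e30_al.Lin

theorem rat_module (R M : Type) [CommRing R] [AddCommGroup M] [Module R M]
    [Module.Finite R M] (hM : ∀ (k : ℕ) (v : M), k ≠ 0 → k • v = 0 → v = 0) :
    ∃ (R' : Type) (_ : CommRing R') (_ : Algebra ℚ R') (M' : Type) (_ : AddCommGroup M')
      (_ : Module R' M') (_ : Module.Finite R' M') (θ : Module.End R M →+* Module.End R' M'),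
      Function.Injective θ := by
  let T : Submonoid R := (nonZeroDivisors ℤ).map (Int.castRingHom R)
  let ψ : ℚ →+* Localization T := IsLocalization.lift (M := nonZeroDivisors ℤ)
    (g := (algebraMap R (Localization T)).comp (Int.castRingHom R))
    fun m => IsLocalization.map_units (Localization T) (⟨_, m, m.2, rfl⟩ : T)
  have hi : Function.Injective (TensorProduct.mk R (Localization T) M 1) := by
    rw [injective_iff_map_eq_zero]
    intro v hv
    obtain ⟨⟨_, m, hm, rfl⟩, h⟩ := (IsLocalizedModule.eq_zero_iff T _).1 hv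
    have h1 : m • v = 0 := by
      rw [← Int.cast_smul_eq_zsmul R]
      exact h
    exact hM m.natAbs v (Int.natAbs_ne_zero.2 (nonZeroDivisors.ne_zero hm))
      (natAbs_nsmul_eq_zero.2 h1)
  refine ⟨Localization T, inferInstance, ψ.toAlgebra, TensorProduct R (Localization T) M,
    inferInstance, inferInstance, inferInstance,
    (Module.End.baseChangeHom R (Localization T) M).toRingHom, fun a b h => ?_⟩
  ext v
  exact hi (LinearMap.congr_fun h (TensorProduct.tmul R 1 v))

section

variable (R M : ℕ → Type) [∀ c, CommRing (R c)] [∀ c, AddCommGroup (M c)] [∀ c, Module (R c) (M c)]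

/-- The submodule of the sequences that are eventually zero. -/
def evS : Submodule (∀ c, R c) (∀ c, M c) where
  carrier := {x | ∀ᶠ c in Filter.atTop, x c = 0}
  zero_mem' := Filter.Eventually.of_forall fun _ => rfl
  add_mem' := fun {x y} hx hy => (Filter.Eventually.and hx hy).mono fun c h => by
    rw [Pi.add_apply, h.1, h.2, add_zero]
  smul_mem' := fun y x hx => Filter.Eventually.mono hx fun c h => by
    rw [Pi.smul_apply', h, smul_zero]

/-- A sequence of endomorphisms acts on the sequences. -/
def seqEnd (a : ∀ c, Module.End (R c) (M c)) : Module.End (∀ c, R c) (∀ c, M c) where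
  toFun v c := a c (v c)
  map_add' v w := funext fun c => map_add (a c) (v c) (w c)
  map_smul' r v := funext fun c => map_smul (a c) (r c) (v c)

/-- A sequence of endomorphisms acts on the reduced product. -/
def redEnd : (∀ c, Module.End (R c) (M c)) →+* Module.End (∀ c, R c) ((∀ c, M c) ⧸ evS R M) where
  toFun a := (evS R M).mapQ (evS R M) (seqEnd R M a) fun x hx =>
    Filter.Eventually.mono hx fun c h => by
      change a c (x c) = 0
      rw [h, map_zero]
  map_one' := Submodule.linearMap_qext _ rfl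
  map_mul' _ _ := Submodule.linearMap_qext _ rfl
  map_zero' := Submodule.linearMap_qext _ rfl
  map_add' _ _ := Submodule.linearMap_qext _ rfl

variable {R M} {Γ : ℕ → Type} [∀ c, Group (Γ c)]

theorem seq_ident {d : ℕ} (b : ∀ c, Fin d → M c)
    (hb : ∀ c, Submodule.span (R c) (Set.range (b c)) = ⊤)
    (hM : ∀ c, ∀ v : M c, c.factorial • v = 0 → v = 0)
    (ρ : ∀ c, Γ c →* Module.End (R c) (M c)) {n : ℕ} (g : ∀ c, Γ c) (h : ∀ c, Eng n (g c)) :
    ∃ e m c, QQ (ρ c) (g c) e m := by
  have hF : Module.Finite (∀ c, R c) (∀ c, M c) := by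
    classical
    refine ⟨⟨Finset.univ.image fun j c => b c j, eq_top_iff.2 fun v _ => ?_⟩⟩
    choose a ha using fun c => (Submodule.mem_span_range_iff_exists_fun (R c)).1
      ((hb c).ge (Submodule.mem_top : v c ∈ ⊤))
    rw [Finset.coe_image, Finset.coe_univ, Set.image_univ]
    refine (Submodule.mem_span_range_iff_exists_fun _).2 ⟨fun j c => a c j, funext fun c => ?_⟩
    rw [Finset.sum_apply]
    exact ha c
  obtain ⟨R', _, _, M', _, _, _, θ, hθ⟩ := rat_module (∀ c, R c) ((∀ c, M c) ⧸ evS R M)
    fun k v hk hv => by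
      obtain ⟨v, rfl⟩ := (evS R M).mkQ_surjective v
      rw [← map_nsmul] at hv
      refine (Submodule.Quotient.mk_eq_zero _).2
        ((Filter.Eventually.and ((Submodule.Quotient.mk_eq_zero _).1 hv)
          (Filter.eventually_ge_atTop k)).mono fun c h => hM c _ ?_)
      obtain ⟨j, hj⟩ := Nat.dvd_factorial (Nat.pos_of_ne_zero hk) h.2
      have h2 : k • v c = 0 := h.1
      rw [hj, mul_comm, mul_smul, h2, smul_zero]
  have hE : Eng n g := fun x => funext fun c => by
    have h1 : Function.Semiconj (fun y : ∀ c, Γ c => y c) (fun y => y⁻¹ * g⁻¹ * y * g)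
        (fun y => y⁻¹ * (g c)⁻¹ * y * g c) := fun y => rfl
    exact (h1.iterate_right n x).trans (h c (x c))
  let σ : (∀ c, Γ c) →* ∀ c, Module.End (R c) (M c) :=
    MonoidHom.pi fun c => (ρ c).comp (Pi.evalMonoidHom Γ c)
  let ψ := θ.comp (redEnd R M)
  obtain ⟨e, m, hq⟩ := ident0 (ψ.toMonoidHom.comp σ) hE
  by_contra hc
  have h1 : ∀ c, ∃ f : Fin m → ℕ → Γ c, ulPr (ρ c) (g c) e (fun _ => 1) f ≠ 0 := fun c =>
    not_forall.1 fun h2 => hc ⟨e, m, c, h2⟩
  choose f hf using h1
  have h2 := ul_map ψ (MonoidHom.id _) (ρ := σ) (σ := ψ.toMonoidHom.comp σ)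
    (fun _ => rfl) g e (fun _ => 1) fun i j c => f c i j
  have h3 : redEnd R M (ulPr σ g e (fun _ => 1) fun i j c => f c i j) = 0 :=
    hθ ((h2.trans (hq fun i j c => f c i j)).trans (map_zero θ).symm)
  have h4 : ∀ k, ∀ᶠ c in Filter.atTop,
      ulPr σ g e (fun _ => 1) (fun i j c => f c i j) c (b c k) = 0 := fun k =>
    (Submodule.Quotient.mk_eq_zero (evS R M)).1
      (LinearMap.congr_fun h3 (Submodule.Quotient.mk fun c => b c k))
  obtain ⟨c, h5⟩ := (Filter.eventually_all.2 h4).exists
  refine hf c ?_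
  have h6 := ul_map (Pi.evalRingHom (fun c => Module.End (R c) (M c)) c) (Pi.evalMonoidHom Γ c)
    (ρ := σ) (σ := ρ c) (fun _ => rfl) g e (fun _ => 1) fun i j c => f c i j
  exact h6.symm.trans (LinearMap.ext_on_range (hb c) h5)

end

/-- Left `n`-Engel elements acting on modules with `d` generators without small torsion. -/
theorem mainL (d n : ℕ) :
    ∃ N : ℕ, ∀ (R M : Type) [CommRing R] [AddCommGroup M] [Module R M] (b : Fin d → M),
      Submodule.span R (Set.range b) = ⊤ → (∀ v : M, N.factorial • v = 0 → v = 0) →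
      ∀ (Γ : Type) [Group Γ] (ρ : Γ →* Module.End R M) (g : Γ), Eng n g → ∃ e m, QQ ρ g e m := by
  by_contra hc
  simp only [not_exists, not_forall] at hc
  choose R M _ _ _ b hb hM Γ _ ρ g hg hq using hc
  obtain ⟨e, m, c, h⟩ := seq_ident b hb hM ρ g hg
  exact hq c e m h

end Pool.Agent.Lib.MP_b39e30_al.Lc
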