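import Pool.Agent.Lib.MP_b39e30_al.Lc.Un
import Pool.Agent.Lib.MP_b39e30_al.Lc.Ul
import Pool.Agent.Lib.MP_b39e30_al.Lin.PSub
import Pool.Agent.Lib.MP_b39e30_al.Lin.GUnip
import Pool.Agent.Lib.MP_b39e30_al.Fit.Stab

/-!
The normal closure of a bounded left Engel element acting on a finitely generated module.
-/

set_option autoImplicit false

namespace Pool.Agent.Lib.MP_b39e30_al.Lc

open Pool.Agent.Lib.MP_b39e30_al.Lin Pool.Agent.Lib.MP_b39e30_al.Fit

section

variable {R A E U : Type} [CommRing R] [Ring A] [Algebra R A] [Ring E] [Algebra R E]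
  [AddCommGroup U] [Module R U] {Γ : Type} [Group Γ]

/-- Pairs of operators, on `E` and on `U`, that are compatible with the maps `t` and `j`. -/
def pairAlg (T : Subalgebra R E) (t : T →ₐ[R] A) (j : U →ₗ[R] A) :
    Subalgebra R (Module.End R E × Module.End R U) where
  carrier := {p | ∀ (X : T) (W : U), t X = j W → ∃ Y : T, Y.1 = p.1 X ∧ t Y = j (p.2 W)}
  mul_mem' := fun {p q} hp hq X W h => by
    obtain ⟨Y, h1, h2⟩ := hq X W h
    obtain ⟨Z, h3, h4⟩ := hp Y _ h2
    exact ⟨Z, h3.trans (congrArg p.1 h1), h4⟩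
  add_mem' := fun {p q} hp hq X W h => by
    obtain ⟨Y, h1, h2⟩ := hq X W h
    obtain ⟨Z, h3, h4⟩ := hp X W h
    exact ⟨Z + Y, congrArg₂ (· + ·) h3 h1, (map_add t Z Y).trans
      ((congrArg₂ (· + ·) h4 h2).trans (map_add j _ _).symm)⟩
  algebraMap_mem' := fun r X W h =>
    ⟨r • X, rfl, (map_smul t r X).trans ((congrArg (r • ·) h).trans (map_smul j r W).symm)⟩

theorem adj_aux [Algebra ℚ R] [Module.Free R E] [Module.Finite R E] (T : Subalgebra R E)
    (t : T →ₐ[R] A) (ht : Function.Surjective t) (ρ : Γ →* A) {g : Γ}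
    (hs : (Subgroup.zpowers g).IsSubnormal) (j : U →ₗ[R] A) (hj : Function.Injective j)
    (σ : Γ →* Module.End R U) (hσ : ∀ x W, j (σ x W) = cj ρ x⁻¹ (j W)) {n : ℕ}
    (hu : ∀ W, (fun Z => cj ρ g Z - Z)^[n] (j W) = 0) :
    ∃ m : ℕ, ∀ l : List Γ, l.length = m → ∀ W, df ρ g l (j W) = 0 := by
  let π : pairAlg T t j →ₐ[R] Module.End R U := (AlgHom.snd R _ _).comp (pairAlg T t j).val
  let ι : pairAlg T t j →ₐ[R] Module.End R E := (AlgHom.fst R _ _).comp (pairAlg T t j).val
  have hι : Function.Injective ι := fun p q hpq => by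
    have h0 : p.1.1 = q.1.1 := hpq
    refine Subtype.ext (Prod.ext h0 (LinearMap.ext fun W => hj ?_))
    obtain ⟨X, hX⟩ := ht (j W)
    obtain ⟨Y, h1, h2⟩ := p.2 X W hX
    obtain ⟨Z, h3, h4⟩ := q.2 X W hX
    rw [← h2, ← h4, show Y = Z from Subtype.ext (by rw [h1, h3, h0])]
  have hB : NilP R π.range := fun V hV m h =>
    subqNil (A := pairAlg T t j) (B := π.range) (E := Module.End R E) ι hι π.rangeRestrict
      π.rangeRestrict_surjective V hV h
  have hm : ∀ x, σ x ∈ π.range := fun x => by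
    obtain ⟨G, hG⟩ := ht (ρ x⁻¹⁻¹)
    obtain ⟨G', hG'⟩ := ht (ρ x⁻¹)
    exact ⟨⟨(LinearMap.mulLeftRight R (G.1, G'.1), σ x), fun X W h =>
      ⟨G * X * G', rfl, by rw [map_mul, map_mul, hG, hG', h, hσ]; rfl⟩⟩, rfl⟩
  have h1 : ∀ (l : List Γ) (W : U), j ((l.map fun x => σ x⁻¹ - 1).prod W) =
      l.foldr (fun x Z => cj ρ x Z - Z) (j W) := fun l W => by
    induction l with
    | nil => rfl
    | cons x l ih =>
      rw [List.map_cons, List.prod_cons, Module.End.mul_apply, LinearMap.sub_apply,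
        map_sub, hσ, inv_inv, Module.End.one_apply, ih, List.foldr_cons]
  have h0 : ∀ (k : ℕ) (Z : A), (List.replicate k g).foldr (fun x Z => cj ρ x Z - Z) Z =
      (fun Z => cj ρ g Z - Z)^[k] Z := fun k Z => by
    induction k with
    | zero => rfl
    | succ k ih => rw [List.replicate_succ, List.foldr_cons, Function.iterate_succ_apply', ih]
  obtain ⟨k, hk⟩ := unipNil hB (σ.codRestrict π.range hm) (g := g⁻¹)
    (by rwa [Subgroup.zpowers_inv]) (c := n) (Subtype.ext (LinearMap.ext fun W => hj (by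
      have h2 := h1 (List.replicate n g) W
      rw [List.map_replicate, List.prod_replicate, h0, hu] at h2
      exact h2.trans (map_zero j).symm)))
  refine ⟨k, fun l hl W => ?_⟩
  have h2 := congrArg π.range.val (hk l.reverse (fun _ _ => trivial) (by simpa using hl))
  rw [map_list_prod, List.map_map, map_zero] at h2
  have h3 := h1 (l.reverse.map fun x => x⁻¹ * g * x) W
  have h4 : (fun x => σ x⁻¹ - 1) ∘ (fun x => x⁻¹ * g * x) =
      π.range.val ∘ fun u => σ.codRestrict π.range hm (u⁻¹ * g⁻¹ * u) - 1 := by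
    funext x
    rw [Function.comp_apply, Function.comp_apply,
      show (x⁻¹ * g * x)⁻¹ = x⁻¹ * g⁻¹ * x by group]
    rfl
  rw [List.map_map, h4, h2, List.foldr_map, List.foldr_reverse, LinearMap.zero_apply,
    map_zero] at h3
  exact h3.symm

theorem adj_nil [Algebra ℚ R] [Module.Free R E] [Module.Finite R E] (T : Subalgebra R E)
    (t : T →ₐ[R] A) (ht : Function.Surjective t) (ρ : Γ →* A) {g : Γ}
    (hs : (Subgroup.zpowers g).IsSubnormal) (L : Submodule R A)
    (hL : ∀ x, ∀ W ∈ L, cj ρ x W ∈ L) {n : ℕ}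
    (hu : ∀ W ∈ L, (fun Z => cj ρ g Z - Z)^[n] W = 0) :
    ∃ m : ℕ, ∀ l : List Γ, l.length = m → ∀ W ∈ L, df ρ g l W = 0 := by
  let σ : Γ →* Module.End R L :=
    { toFun := fun x =>
        { toFun := fun W => ⟨cj ρ x⁻¹ W, hL _ _ W.2⟩
          map_add' := fun W W' => Subtype.ext (cj_add ρ _ _ _)
          map_smul' := fun r W => Subtype.ext (by simp [cj]) }
      map_one' := LinearMap.ext fun W => Subtype.ext (by simp [cj])
      map_mul' := fun x y => LinearMap.ext fun W => Subtype.ext (by simp [cj, mul_assoc]) }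
  obtain ⟨m, hm⟩ := adj_aux T t ht ρ hs L.subtype L.injective_subtype σ (fun _ _ => rfl)
    fun W => hu W W.2
  exact ⟨m, fun l hl W hW => hm l hl ⟨W, hW⟩⟩

end

section

variable {R M : Type} [CommRing R] [AddCommGroup M] [Module R M] {Γ : Type} [Group Γ]

theorem fit_inj [Algebra ℚ R] [Module.Finite R M] (ρ : Γ →* Module.End R M)
    (hρ : Function.Injective ρ) {n : ℕ} {g : Γ} (h : Eng n g) :
    ∃ c, ∀ f : ℕ → Γ, zw g f c = 1 := by
  obtain ⟨e', m', hq⟩ := ident0 ρ h
  let _ : Algebra ℚ (Module.End R M) :=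
    ((algebraMap R (Module.End R M)).comp (algebraMap ℚ R)).toAlgebra'
      fun c x => Algebra.commutes (algebraMap ℚ R c) x
  obtain ⟨e, he⟩ := ultraM ρ h
  have := ZN_normal g e
  obtain ⟨hG, -⟩ := engineM ρ (ZN g e) h
  have hu : ∀ W ∈ Submodule.span ℚ (logs ρ (ZN g e)),
      (fun Z => ρ g⁻¹ * Z * ρ g - Z)^[n] W = 0 := fun W hW =>
    GE.unip (by rw [← map_mul, mul_inv_cancel, map_one])
      (by rw [← map_mul, inv_mul_cancel, map_one]) (hG W hW)
  let L := Submodule.span R (Submodule.span ℚ (logs ρ (ZN g e)) : Set (Module.End R M))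
  let c : Γ → Module.End R (Module.End R M) := fun x =>
    { toFun := cj ρ x
      map_add' := cj_add ρ x
      map_smul' := fun r Z => by simp [cj] }
  have hL : ∀ x, ∀ W ∈ L, cj ρ x W ∈ L := fun x W hW =>
    (Submodule.span_le.2 (fun W hW => Submodule.subset_span (by
      have h1 := logs_conj ρ (ZN g e) x⁻¹ W hW
      rw [inv_inv] at h1
      exact h1)) : L ≤ L.comap (c x)) hW
  have hp : ∀ k Z, ((c g - 1) ^ k) Z = (fun Z => cj ρ g Z - Z)^[k] Z := fun k Z => by
    rw [Module.End.pow_apply]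
    rfl
  obtain ⟨d, b, hb⟩ := Module.Finite.exists_fin (R := R) (M := M)
  obtain ⟨m, hm⟩ := adj_nil _ _ (Matrix.isRepresentation.toEnd_surjective R b hb) ρ
      (hq.subnormal hρ h) L hL (n := n) fun W hW => by
    rw [← hp]
    exact (Submodule.span_le.2 (fun W hW => (hp n W).trans (hu W hW)) :
      L ≤ LinearMap.ker ((c g - 1) ^ n)) hW
  exact ⟨e + m + m, stab hρ he L.toAddSubgroup
    (fun W hW => Submodule.subset_span (Submodule.subset_span hW)) hL hm⟩

theorem fit0 [Algebra ℚ R] [Module.Finite R M] (ρ : Γ →* Module.End R M) {n : ℕ} {g : Γ}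
    (h : Eng n g) : ∃ c, ∀ f : ℕ → Γ, ρ (zw g f c) = 1 := by
  obtain ⟨c, hc⟩ := fit_inj ((Units.coeHom _).comp ρ.toHomUnits.range.subtype)
    (Units.val_injective.comp Subtype.val_injective)
    (h.map _ ρ.toHomUnits.rangeRestrict_surjective)
  exact ⟨c, fun f => congrArg (fun x : ρ.toHomUnits.range => (x.1 : Module.End R M))
    ((map_zw ρ.toHomUnits.rangeRestrict g f c).trans (hc _))⟩

end

end Pool.Agent.Lib.MP_b39e30_al.Lc
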