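import Pool.Agent.Lib.MP_b39e30_al.Lin.Engine

/-!
A `ℚ`-space of matrices all of whose words have uniformly nilpotent traces is nilpotent.
-/

set_option autoImplicit false

namespace Pool.Agent.Lib.MP_b39e30_al.Lc

open MvPolynomial Pool.Agent.Lib.MP_b39e30_al.Lin

variable {ι : Type} [Fintype ι] [DecidableEq ι] {R : Type*} [CommRing R]

theorem trace_unif (S : Set (Matrix ι ι R)) {m : ℕ} (h : ∀ a ∈ S, a ^ m = 0) :
    ∃ e : ℕ, ∀ a ∈ S, a.trace ^ e = 0 := by
  let A : Matrix ι ι (S → R) := Matrix.of fun i j s => s.1 i j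
  have h1 : ∀ s : S, (Pi.evalRingHom (fun _ : S => R) s).mapMatrix A = s.1 := fun _ => rfl
  have h2 : A ^ m = 0 := by
    ext i j s
    have h3 := map_pow (Pi.evalRingHom (fun _ : S => R) s).mapMatrix A m
    rw [h1, h s.1 s.2] at h3
    exact congrFun (congrFun h3 i) j
  obtain ⟨e, he⟩ := Matrix.isNilpotent_trace_of_isNilpotent ⟨m, h2⟩
  refine ⟨e, fun a ha => ?_⟩
  have h3 := congrArg (Pi.evalRingHom (fun _ : S => R) ⟨a, ha⟩) he
  rw [map_pow, map_zero, AddMonoidHom.map_trace (Pi.evalRingHom (fun _ : S => R) ⟨a, ha⟩)] at h3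
  exact h3

variable [Algebra ℚ R]

theorem tn_step (V : Submodule ℚ (Matrix ι ι R)) {e : ℕ}
    (h : ∀ l : List (Matrix ι ι R), l ≠ [] → (∀ W ∈ l, W ∈ V) → l.prod.trace ^ e = 0) :
    ∃ N e : ℕ, engW ι N ^ e ≤ engI (0 : Matrix ι ι R) V := by
  refine noeth _ (engW ι) (fun N N' hN => Ideal.span_mono ?_) fun K _ _ _ φ hφ => ?_
  · rintro _ ⟨l, h1, h2, h3⟩
    exact ⟨l, h1, hN.trans h2, h3⟩
  obtain ⟨N, hN⟩ := field2 (ι := ι) (K := K)
      (S := (fun W => Matrix.map W φ) '' (engV ι : Set _)) fun l hl0 hl => by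
    obtain ⟨l', h1, rfl⟩ := eng_lift _ _ l hl
    rw [← eng_map_prod, ← AddMonoidHom.map_trace φ]
    refine IsNilpotent.eq_zero ⟨e, ?_⟩
    rw [← map_pow]
    refine hφ _ (mem_engI.2 fun z hz => ?_)
    rw [map_pow, AddMonoidHom.map_trace (engEv (0 : Matrix ι ι R) z), eng_map_prod]
    refine h _ (fun h0 => hl0 (by rw [List.map_eq_nil_iff.1 h0]; rfl)) fun W hW => ?_
    obtain ⟨W', h2, rfl⟩ := List.mem_map.1 hW
    exact engEv_mem 0 hz (h1 W' h2)
  refine ⟨N, fun x hx => (Ideal.span_le (I := RingHom.ker φ)).2 ?_ hx⟩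
  rintro _ ⟨l, h1, h2, a, b, rfl⟩
  have h3 := hN (l.map fun W => W.map φ) (fun W hW => by
    obtain ⟨W', h4, rfl⟩ := List.mem_map.1 hW
    exact ⟨W', h1 W' h4, rfl⟩) (by simpa using h2)
  rw [← eng_map_prod] at h3
  exact congrFun (congrFun h3 a) b

/-- Uniformly nilpotent traces force nilpotency. -/
theorem trace_nil (V : Submodule ℚ (Matrix ι ι R)) {e : ℕ}
    (h : ∀ l : List (Matrix ι ι R), l ≠ [] → (∀ W ∈ l, W ∈ V) → l.prod.trace ^ e = 0) :
    ∃ m : ℕ, ∀ l : List (Matrix ι ι R), (∀ U ∈ l, U ∈ V) → l.length = m → l.prod = 0 := by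
  obtain ⟨N, e, he⟩ := tn_step V h
  refine ⟨N * e, fun l hl hm => ?_⟩
  ext a b
  let G : Fin l.length → Matrix ι ι (MvPolynomial (Fin l.length × ι × ι) R) :=
    fun i => Matrix.of fun a b => MvPolynomial.X (i, a, b)
  have hF : ∀ W : Fin l.length → Matrix ι ι R,
      eval (fun p : Fin l.length × ι × ι => W p.1 p.2.1 p.2.2) ((List.ofFn G).prod a b) =
        (List.ofFn W).prod a b := by
    intro W
    have h1 := eng_map_prod (eval fun p : Fin l.length × ι × ι => W p.1 p.2.1 p.2.2) (List.ofFn G)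
    have h2 : (fun W' => Matrix.map W'
        (eval fun p : Fin l.length × ι × ι => W p.1 p.2.1 p.2.2)) ∘ G = W := by
      funext j
      ext a b
      simp [G]
    rw [List.map_ofFn, h2] at h1
    exact congrFun (congrFun h1 a) b
  have h1 := eng_polar V ((List.ofFn G).prod a b) (fun z hz c => ?_) l.get
    fun i => hl _ (List.get_mem _ _)
  · rw [hF, List.ofFn_get] at h1
    exact h1
  · rw [hF fun i => ∑ j, c i j • z j]
    have h2 := mem_engI.1 (he (engW_pow N e (List.ofFn fun i => ∑ j, c i j • engT ι (some j))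
      (fun W hW => by
        obtain ⟨j, rfl⟩ := List.mem_ofFn.1 hW
        exact engV_sum _) (by simp [hm]) a b)) z hz
    have h3 := eng_map_prod (engEv (0 : Matrix ι ι R) z)
      (List.ofFn fun i => ∑ j, c i j • engT ι (some j))
    have h4 : (fun W => Matrix.map W (engEv (0 : Matrix ι ι R) z)) ∘
        (fun i => ∑ j, c i j • engT ι (some j)) =
        fun i => ∑ j, c i j • z j := funext fun i => engEv_sum 0 z _
    rw [List.map_ofFn, h4] at h3
    rw [← h3]
    exact h2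

end Pool.Agent.Lib.MP_b39e30_al.Lc
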