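import Mathlib

/-!
A unipotent unit that generates a subnormal subgroup has a normal closure that acts nilpotently,
in every algebra in which subalgebras that are nil modulo commutators are nilpotent.
-/

set_option autoImplicit false

namespace Pool.Agent.Lib.MP_b39e30_al.Lc

/-- Subalgebras that are nil of bounded index modulo commutators are nilpotent. -/
def NilP (R B : Type) [CommRing R] [Ring B] [Algebra R B] : Prop :=
  ∀ V : Submodule R B, (∀ x ∈ V, ∀ y ∈ V, x * y ∈ V) → ∀ m : ℕ,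
    (∀ x ∈ V, ∃ y : B, y ^ m = 0 ∧ x - y ∈ Submodule.span R {z | ∃ φ ψ : B, z = φ * ψ - ψ * φ}) →
    ∃ s : ℕ, ∀ l : List B, (∀ x ∈ l, x ∈ V) → l.length = s → l.prod = 0

variable {R B : Type} [CommRing R] [Ring B] [Algebra R B] {Γ : Type*} [Group Γ]

/-- Products of `k` factors `ρ (u⁻¹ * g * u) - 1` with `u` in `K` vanish. -/
def UN (ρ : Γ →* B) (g : Γ) (K : Subgroup Γ) (k : ℕ) : Prop :=
  ∀ l : List Γ, (∀ u ∈ l, u ∈ K) → l.length = k →
    (l.map fun u => ρ (u⁻¹ * g * u) - 1).prod = 0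

theorem UN.pow {ρ : Γ →* B} {g : Γ} {K : Subgroup Γ} {k : ℕ} (h : UN ρ g K k)
    {y : B} (hy : y ∈ Submodule.span R {x | ∃ w ∈ K, x = (ρ g - 1) * ρ w}) :
    y ^ k = 0 := by
  have h1 : ∀ j, y ^ j ∈ Submodule.span R {x | ∃ l : List Γ, (∀ u ∈ l, u ∈ K) ∧ l.length = j ∧
      ∃ w ∈ K, x = (l.map fun u => ρ (u⁻¹ * g * u) - 1).prod * ρ w} := fun j => by
    induction j with
    | zero => exact Submodule.subset_span ⟨[], by simp, rfl, 1, one_mem _, by simp⟩
    | succ j ih =>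
      have h2 := Submodule.mul_mem_mul ih hy
      rw [Submodule.span_mul_span, ← pow_succ] at h2
      refine Submodule.span_mono ?_ h2
      rintro _ ⟨_, ⟨l, h3, h4, w, hw, rfl⟩, _, ⟨v, hv, rfl⟩, rfl⟩
      refine ⟨l ++ [w⁻¹], fun u hu => ?_, by simp [h4], w * v, mul_mem hw hv, ?_⟩
      · rcases List.mem_append.1 hu with a | a
        · exact h3 u a
        · rw [List.mem_singleton.1 a]
          exact inv_mem hw
      · have h5 : ρ w * ((ρ g - 1) * ρ v) = (ρ (w⁻¹⁻¹ * g * w⁻¹) - 1) * ρ (w * v) := by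
          simp only [mul_sub, sub_mul, one_mul, ← map_mul]
          congr 2
          group
        simp only [List.map_append, List.prod_append, List.map_singleton, List.prod_singleton,
          mul_assoc, h5]
  refine (Submodule.span_eq_bot.2 ?_).le (h1 k)
  rintro _ ⟨l, h3, h4, w, -, rfl⟩
  rw [h l h3 h4, zero_mul]

theorem UN.step (hB : NilP R B) {ρ : Γ →* B} {g : Γ}
    {K K' : Subgroup Γ} {k : ℕ} (h : UN ρ g K k) (hg : g ∈ K)
    (hn : ∀ u ∈ K', ∀ w ∈ K, u * w * u⁻¹ ∈ K) : ∃ s, UN ρ g K' s := by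
  let V : Submodule R B :=
    Submodule.span R {x | ∃ u ∈ K', ∃ w ∈ K, x = (ρ (u⁻¹ * g * u) - 1) * ρ w}
  obtain ⟨s, hs⟩ := hB V
    (fun x hx y hy => by
      have h2 := Submodule.mul_mem_mul hx hy
      rw [Submodule.span_mul_span] at h2
      refine Submodule.span_le.2 ?_ h2
      rintro _ ⟨_, ⟨u, hu, w, hw, rfl⟩, _, ⟨u', hu', w', hw', rfl⟩, rfl⟩
      have h3 : u'⁻¹ * g * u' ∈ K := by simpa only [inv_inv] using hn _ (inv_mem hu') g hg
      have h4 : (ρ (u⁻¹ * g * u) - 1) * ρ w * ((ρ (u'⁻¹ * g * u') - 1) * ρ w') =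
          (ρ (u⁻¹ * g * u) - 1) * ρ (w * (u'⁻¹ * g * u') * w') -
            (ρ (u⁻¹ * g * u) - 1) * ρ (w * w') := by
        rw [map_mul ρ _ w', map_mul ρ w, map_mul ρ w w']
        noncomm_ring
      simp only [h4]
      exact sub_mem (Submodule.subset_span ⟨u, hu, _, mul_mem (mul_mem hw h3) hw', rfl⟩)
        (Submodule.subset_span ⟨u, hu, _, mul_mem hw hw', rfl⟩))
    k fun x hx => by
      suffices h3 : ∃ y ∈ Submodule.span R {x | ∃ w ∈ K, x = (ρ g - 1) * ρ w},
          x - y ∈ Submodule.span R {z | ∃ φ ψ : B, z = φ * ψ - ψ * φ} from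
        h3.imp fun y hy => ⟨h.pow hy.1, hy.2⟩
      induction hx using Submodule.span_induction with
      | mem x hx =>
        obtain ⟨u, hu, w, hw, hx⟩ := hx
        refine ⟨ρ u * x * ρ u⁻¹, Submodule.subset_span ⟨_, hn u hu w hw, ?_⟩,
          Submodule.subset_span ⟨ρ u⁻¹, ρ u * x, ?_⟩⟩
        · simp only [hx, mul_sub, sub_mul, one_mul, ← map_mul]
          congr 2
          group
        · rw [← mul_assoc (ρ u⁻¹), ← map_mul, inv_mul_cancel, map_one, one_mul]
      | zero => exact ⟨0, zero_mem _, by rw [sub_zero]; exact zero_mem _⟩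
      | add x y _ _ hx hy =>
        obtain ⟨x', h4, h5⟩ := hx
        obtain ⟨y', h6, h7⟩ := hy
        exact ⟨x' + y', add_mem h4 h6, by rw [add_sub_add_comm]; exact add_mem h5 h7⟩
      | smul t x _ hx =>
        obtain ⟨x', h4, h5⟩ := hx
        exact ⟨t • x', Submodule.smul_mem _ t h4, by
          rw [← smul_sub]; exact Submodule.smul_mem _ t h5⟩
  refine ⟨s, fun l h1 h2 => hs _ (fun x hx => ?_) (by rw [List.length_map, h2])⟩
  obtain ⟨u, hu, rfl⟩ := List.mem_map.1 hx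
  exact Submodule.subset_span ⟨u, h1 u hu, 1, one_mem _, by rw [map_one, mul_one]⟩

theorem unipNil (hB : NilP R B) (ρ : Γ →* B) {g : Γ}
    (hs : (Subgroup.zpowers g).IsSubnormal) {c : ℕ} (hc : (ρ g - 1) ^ c = 0) :
    ∃ k : ℕ, UN ρ g ⊤ k := by
  have key : ∀ K : Subgroup Γ, K.IsSubnormal → g ∈ K → (∃ k, UN ρ g K k) → ∃ k, UN ρ g ⊤ k := by
    intro K hK
    induction hK with
    | top => exact fun _ h => h
    | step K K' h1 _ h2 ih =>
      rintro hg ⟨k, h⟩
      exact ih (h1 hg) (h.step hB hg fun u hu w hw => h2.conj_mem ⟨w, h1 hw⟩ hw ⟨u, hu⟩)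
  exact key _ hs (Subgroup.mem_zpowers g) ⟨c, fun l h1 h2 => by
    rw [← hc, ← h2, ← List.prod_replicate, ← List.map_const']
    refine congrArg List.prod (List.map_congr_left fun u hu => ?_)
    obtain ⟨i, rfl⟩ := Subgroup.mem_zpowers_iff.1 (h1 u hu)
    congr 2
    group⟩

end Pool.Agent.Lib.MP_b39e30_al.Lc
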